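import Pool.Agent.Helper454.Wh.Defs

/-!
# The HOMFLYPT and the Kauffman polynomial of a knot, and their `a`-spreads

Sliced (unoriented and oriented) link diagrams, isotopy, and the rules of the two polynomials are
those of `Pool.Agent.Helper454.Kauf.Defs` and `Pool.Agent.Helper454.Wh.Defs`.
Both polynomials are taken in the ring `Raz = ℤ[a^{±1}, z^{±1}]`.
-/

set_option autoImplicit false

namespace Pool.Agent.T2H90.AS

open Pool.Agent.Helper454.Kauf (Word Raz KauffmanRules circle HasWrithe normalised aPow zVar)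
open Pool.Agent.Helper454.Wh (OWord OClosed HomflyRules ocircle)

/-- `Λ` is the HOMFLYPT polynomial of oriented links (defined on diagrams): it is invariant under
isotopy, satisfies `a⁻¹ P(L₊) - a P(L₋) = z P(L₀)`, and is `1` for the unknot. -/
def IsHomflyInvariant (Λ : OWord → Raz) : Prop :=
  HomflyRules (aPow 1) (aPow (-1)) zVar Λ ∧ Λ ocircle = 1

/-- `P` is the HOMFLYPT polynomial `P_K(a, z)` of the oriented knot (link) with the diagram `K`. -/
def IsHomflyPolynomialOf (K : OWord) (P : Raz) : Prop :=
  (∃ Λ : OWord → Raz, IsHomflyInvariant Λ) ∧ ∀ Λ : OWord → Raz, IsHomflyInvariant Λ → Λ K = P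

/-- `Λ` is Kauffman's regular isotopy invariant with values in `ℤ[a^{±1}, z^{±1}]`: it satisfies
Kauffman's rules and `Λ = 1` for the crossingless circle. -/
def IsKauffmanInvariant (Λ : Word → Raz) : Prop := KauffmanRules Λ ∧ Λ circle = 1

/-- `F` is the Kauffman polynomial `F_K(a, z) = a^{-w(K)} Λ_K(a, z)` of the knot with the
diagram `K`: there are a Kauffman invariant `Λ` and a writhe `t` of `K`, and `F = a^{-t} Λ(K)` for
all of these. -/
def IsKauffmanPolynomialOf (K : Word) (F : Raz) : Prop :=
  (∃ (Λ : Word → Raz) (t : ℤ), IsKauffmanInvariant Λ ∧ HasWrithe K t) ∧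
    ∀ (Λ : Word → Raz) (t : ℤ), IsKauffmanInvariant Λ → HasWrithe K t → F = normalised t (Λ K)

/-- The exponents of `a` which occur in a polynomial in `a^{±1}` and `z^{±1}`. -/
def aExponents (Q : Raz) : Set ℤ := {j | Q.coeff j ≠ 0}

/-- The `a`-spread of `Q` is `s`: the largest exponent of `a` occurring in `Q` minus the smallest
one. -/
def IsASpread (Q : Raz) (s : ℤ) : Prop :=
  ∃ x y : ℤ, IsLeast (aExponents Q) x ∧ IsGreatest (aExponents Q) y ∧ s = y - x

end Pool.Agent.T2H90.AS
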