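import Pool.Agent.T2H90.AS.Defs
import Pool.Agent.T2H90.HX.Run
import Pool.Agent.Helper454.Kauf.Final
import Pool.Agent.Helper454.Kauf.Exist10
import Pool.Agent.Helper454.Wh.Homf.E12

set_option autoImplicit false

namespace Pool.Agent.T2H90.AS

open LaurentPolynomial
open Pool.Agent.Helper454
open Pool.Agent.Helper454.Kauf (Word Raz KauffmanRules circle HasWrithe normalised aPow zVar IsKnot
  Isotopic Closed components)
open Pool.Agent.Helper454.Wh (OWord OClosed HomflyRules ocircle OPiece forget noD)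

/-! ### the diagram -/

def letters : List (Bool × ℕ) :=
  ([2, -4, -4, -1, 2, 5, -3, -4, -3, -4, 2, -4] : List ℤ).map Kauf.toZ

/-- an oriented crossing -/
def ocr (t : Bool × ℕ) : OPiece := if t.1 then OPiece.pos t.2 else OPiece.neg t.2

/-- the diagram of the knot without its last minimum -/
def K0 : OWord := [.birth 0 true, .birth 2 false, .birth 4 false] ++ letters.map ocr ++
  [.death 4, .death 2]

/-- the diagram of the knot: a plat closure with twelve crossings -/
def K : OWord := K0 ++ [.death 0]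

/-- the unoriented diagram -/
def KU : Word := forget K

theorem oclosed_K : OClosed K := by
  unfold OClosed
  decide +kernel

theorem closed_KU : Closed KU := by decide +kernel

theorem components_KU : components KU = 1 := by decide +kernel

theorem isKnot_KU : IsKnot KU := ⟨closed_KU, components_KU⟩

noncomputable section

/-! ### the Kauffman polynomial -/

def kstart : Kauf.Vec 3 := Kauf.opG 2 4 0 (Kauf.opG 1 2 0
  (Kauf.opG 0 0 0 ([(0, [1])] : Kauf.Poly)))

def kfinal : Kauf.Vec 1 := Kauf.opD 1 2 (Kauf.opD 2 4 (Kauf.runZ 3 letters kstart))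

def kfinalL : List (List (ℤ × List ℤ)) := kfinal

def kexpected : List (ℤ × List ℤ) :=
  [(-4, [0, 0, 3, 0, -10, 0, 12, 0, -6, 0, 1]), (-3, [0, 0, 0, 1, 0, -10, 0, 18, 0, -11, 0, 2]),
    (-2, [0, 0, 5, 0, -26, 0, 37, 0, -16, 0, -1, 0, 1]),
    (-1, [0, 0, 0, 0, 0, -12, 0, 33, 0, -25, 0, 5]),
    (0, [0, 0, 4, 0, -22, 0, 41, 0, -24, 0, 1, 0, 1]),
    (1, [0, 0, 0, -2, 0, 1, 0, 11, 0, -13, 0, 3]),
    (2, [0, 0, 1, 0, -6, 0, 16, 0, -14, 0, 3]), (3, [0, 0, 0, -1, 0, 3, 0, -4, 0, 1])]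

theorem kfinal_eq : kfinalL = [kexpected] := by decide +kernel

section
variable {M : Type} [AddCommGroup M] [Module Raz M] {Λ : Word → M} (hΛ : KauffmanRules Λ)
include hΛ

theorem sem_kstart : Kauf.sem Λ 3 kstart = Kauf.ap (Kauf.extd Λ)
    [.birth 0, .birth 2, .birth 4] := by
  rw [kstart, Kauf.sem_opG hΛ 2 4 0 _ (by omega), Kauf.sem_opG hΛ 1 2 0 _ (by omega),
    Kauf.sem_opG hΛ 0 0 0 _ (by omega)]
  have e : Kauf.sem Λ 0 ([(0, [1])] : Kauf.Poly) = Kauf.extd Λ := by
    show Kauf.evalP [(0, [1])] • Kauf.extd Λ = Kauf.extd Λ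
    simp [Kauf.evalP, Kauf.evalZ]
  rw [e]
  rfl

theorem sem_kfinal : Kauf.sem Λ 1 kfinal = zVar • zVar • Kauf.ap (Kauf.extd Λ)
    ([.birth 0, .birth 2, .birth 4] ++ letters.map Kauf.crZ ++ [.death 4, .death 2]) := by
  rw [kfinal, Kauf.sem_opD hΛ 0 2 _ (by omega), Kauf.sem_opD hΛ 1 4 _ (by omega),
    Kauf.sem_runZ hΛ 3 _ _ (by decide), sem_kstart hΛ]
  rfl

end

/-- the value of the diagram times `z^2` -/
def kpolyZ : Raz := Kauf.evalP kexpected

/-- the value of the diagram -/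
def kpoly : Raz := C (T (-2)) * kpolyZ

theorem zpow2 : C (T (-2)) * zVar * zVar = (1 : Raz) := by
  rw [zVar, ← map_mul, ← map_mul, ← T_add, ← T_add]
  simp

theorem value_KU {M : Type} [AddCommGroup M] [Module Raz M] (Λ : Word → M)
    (hΛ : KauffmanRules Λ) : Λ KU = kpoly • Λ circle := by
  have h1 := sem_kfinal hΛ
  have h0 : kfinal = ((kexpected : Kauf.Poly) :: ([] : List (Kauf.Vec 0)) : List (Kauf.Vec 0)) :=
    kfinal_eq
  rw [h0, Kauf.sem_one hΛ] at h1
  have h2 := congrFun h1 [.death 0]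
  have e1 : (Kauf.evalP kexpected • Kauf.st (Kauf.extd Λ) (.birth 0)) [.death 0] =
      kpolyZ • Λ circle := by
    show kpolyZ • Kauf.extd Λ circle = _
    rw [Kauf.extd, if_pos (by decide)]
  have e2 : (zVar • zVar • Kauf.ap (Kauf.extd Λ)
    ([.birth 0, .birth 2, .birth 4] ++ letters.map Kauf.crZ ++ [.death 4, .death 2])) [.death 0] =
      zVar • zVar • Λ KU := by
    show zVar • zVar • Kauf.extd Λ (([.birth 0, .birth 2, .birth 4] ++ letters.map Kauf.crZ ++
      [.death 4, .death 2]) ++ [.death 0]) = _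
    have e3 : ([.birth 0, .birth 2, .birth 4] ++ letters.map Kauf.crZ ++
      [.death 4, .death 2]) ++ [.death 0] = KU := by
      decide +kernel
    rw [e3, Kauf.extd, if_pos closed_KU]
  rw [e1, e2] at h2
  rw [kpoly, mul_smul, h2, smul_smul, smul_smul, zpow2, one_smul]

/-! ### the writhe -/

theorem hasWrithe_KU : HasWrithe KU (-4) :=
  Kauf.wr_sound KU [] [true, false, false] (-4) (by decide +kernel)

theorem wrAll_KU : ∀ t ∈ Kauf.wrAll [] KU, t = -4 := by decide +kernel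

theorem writhe_unique_KU (t : ℤ) (h : HasWrithe KU t) : t = -4 :=
  wrAll_KU t (Kauf.wrAll_complete _ _ _ h)

/-- the Kauffman polynomial of the knot -/
def F : Raz := normalised (-4) kpoly

theorem isKauffmanPolynomialOf_F : IsKauffmanPolynomialOf KU F := by
  refine ⟨⟨Kauf.Ex.Lam Raz, -4, ⟨Kauf.Ex.Lam_rules, Kauf.Ex.Lam_circle⟩, hasWrithe_KU⟩, ?_⟩
  intro Λ t hΛ ht
  obtain rfl := writhe_unique_KU t ht
  have e : Λ KU = kpoly := by
    rw [value_KU Λ hΛ.1, hΛ.2, smul_eq_mul, mul_one]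
  rw [e]
  rfl

/-! ### general lemmas on exponents of `a` -/

theorem T_mul_ne_zero (n : ℤ) {x : LaurentPolynomial ℤ} (h : x ≠ 0) : T n * x ≠ 0 := by
  intro h0
  apply h
  have h2 : (T (-n) : LaurentPolynomial ℤ) * (T n * x) = 0 := by
    rw [h0, mul_zero]
  rw [← mul_assoc, ← T_add] at h2
  simpa using h2

theorem evalZ_ne_zero (x : List ℤ) (n : ℕ) (h : x.getD n 0 ≠ 0) : Kauf.evalZ x ≠ 0 := by
  intro h0
  have h1 := Kauf.evalZ_coeff x n
  rw [h0] at h1
  exact h h1.symm

/-- the coefficient of a power of `a` which occurs only once in the list -/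
theorem evalP_coeff_mem (p q : Kauf.Poly) (k : ℤ) (x : List ℤ) (hp : ∀ t ∈ p, t.1 ≠ k)
    (hq : ∀ t ∈ q, t.1 ≠ k) : (Kauf.evalP (p ++ (k, x) :: q)).coeff k = Kauf.evalZ x := by
  rw [Kauf.evalP_append, Kauf.evalP, AddMonoidAlgebra.coeff_add, Finsupp.add_apply,
    AddMonoidAlgebra.coeff_add, Finsupp.add_apply, Kauf.evalP_coeff_eq_zero p k hp,
    Kauf.evalP_coeff_eq_zero q k hq, Kauf.coeff_CT, if_pos rfl, zero_add, add_zero]

/-- the spread of a polynomial which is given by a list, up to a power of `a` and of `z` -/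
theorem isASpread_of_list (q : Kauf.Poly) (x : List ℤ) (i j : ℤ) (y : List ℤ) (s t : ℤ)
    (m n : ℕ) (hx : x.getD m 0 ≠ 0) (hy : y.getD n 0 ≠ 0)
    (h1 : ∀ t ∈ q ++ [(j, y)], i < t.1) (h2 : ∀ t ∈ (i, x) :: q, t.1 < j) :
    IsASpread (aPow s * (C (T t) * Kauf.evalP ((i, x) :: q ++ [(j, y)]))) (j - i) := by
  have hc : ∀ k, (aPow s * (C (T t) * Kauf.evalP ((i, x) :: q ++ [(j, y)]))).coeff k =
      T t * (Kauf.evalP ((i, x) :: q ++ [(j, y)])).coeff (k - s) := by
    intro k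
    rw [aPow, Kauf.T_mul_coeff, Kauf.C_mul_coeff]
  have hij : i < j := h2 (i, x) List.mem_cons_self
  refine ⟨i + s, j + s, ⟨?_, ?_⟩, ⟨?_, ?_⟩, by ring⟩
  · show _ ≠ _
    rw [hc, show i + s - s = i by ring]
    apply T_mul_ne_zero
    have := evalP_coeff_mem [] (q ++ [(j, y)]) i x (by simp) (fun t ht => (h1 t ht).ne')
    rw [List.nil_append] at this
    rw [List.cons_append, this]
    exact evalZ_ne_zero x m hx
  · intro k hk
    by_contra hlt
    apply hk
    rw [hc, Kauf.evalP_coeff_eq_zero, mul_zero]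
    intro t ht
    rcases List.mem_cons.1 ht with h | h
    · rw [h]; show i ≠ _; omega
    · have := h1 t h; omega
  · show _ ≠ _
    rw [hc, show j + s - s = j by ring]
    apply T_mul_ne_zero
    have := Kauf.evalP_coeff_last ((i, x) :: q) j y h2
    rw [this]
    exact evalZ_ne_zero y n hy
  · intro k hk
    by_contra hlt
    apply hk
    rw [hc, Kauf.evalP_coeff_eq_zero, mul_zero]
    intro t ht
    rcases List.mem_append.1 ht with h | h
    · have := h2 t h; omega
    · rw [List.mem_singleton.1 h]; show j ≠ _; omega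

theorem isASpread_F : IsASpread F 7 := by
  have h := isASpread_of_list ((kexpected.drop 1).dropLast)
    [0, 0, 3, 0, -10, 0, 12, 0, -6, 0, 1] (-4) 3 [0, 0, 0, -1, 0, 3, 0, -4, 0, 1] 4 (-2) 2 3
    (by decide) (by decide) (by decide) (by decide)
  exact h

/-! ### the HOMFLYPT polynomial -/

/-- the unit `a` -/
def ua : Razˣ := ⟨aPow 1, aPow (-1), by rw [aPow, aPow, ← T_add]; rfl,
  by rw [aPow, aPow, ← T_add]; rfl⟩

theorem ua_val : (ua : Raz) = aPow 1 := rfl

theorem ua_inv : (↑ua⁻¹ : Raz) = aPow (-1) := rfl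

theorem up_ua (i : ℤ) : HX.up ua i = T i := by
  induction i using Int.induction_on with
  | zero => rw [HX.up_zero]; exact T_zero.symm
  | succ i ih => rw [HX.up_add, ih, HX.up_one, ua_val, aPow, ← T_add]
  | pred i ih => rw [sub_eq_add_neg, HX.up_add, ih, HX.up_neg_one, ua_inv, aPow, ← T_add]

theorem evZ_eq (x : List ℤ) : HX.evZ zVar x = C (Kauf.evalZ x) := by
  induction x with
  | nil => rw [HX.evZ, Kauf.evalZ, map_zero]
  | cons a x ih =>
    rw [HX.evZ, ih, Kauf.evalZ, map_add, map_mul, zVar]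
    congr 1

theorem evP_eq (p : HX.PM) : HX.evP ua zVar p = Kauf.evalP p := by
  induction p with
  | nil => rfl
  | cons t p ih =>
    obtain ⟨i, x⟩ := t
    rw [HX.evP, Kauf.evalP, ih, up_ua, evZ_eq, mul_comm]

def hexpected : HX.PM :=
  [(-8, [0, 0, 0, 0, 1]), (-6, [0, 0, -1, 0, -5, 0, -5, 0, -1]),
    (-4, [0, 0, 4, 0, 12, 0, 12, 0, 6, 0, 1]), (-2, [0, 0, -5, 0, -13, 0, -10, 0, -2]),
    (0, [0, 0, 3, 0, 4, 0, 1])]

theorem run_K0 : HX.headP (HX.run K0 HX.s0) = (1, 2, hexpected) := by decide +kernel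

theorem ok_K0 : HX.okW K0 0 0 = true := by decide +kernel

/-- the other orientation of the circle -/
theorem circle_false {Λ : OWord → Raz} (hΛ : HomflyRules (aPow 1) (aPow (-1)) zVar Λ) :
    Λ [.birth 0 false, .death 0] = Λ ocircle := by
  have h0 : Wh.extd Λ ∈ Wh.S Raz Λ 0 noD := Submodule.subset_span ⟨[], rfl, rfl⟩
  have hT := Wh.T_of_mem h0
  have e1 := Wh.curlBP hΛ hT (i := 0) true (le_refl 0)
  have e2 := Wh.curlDP hΛ (Wh.T_birth hT (i := 0) true (le_refl 0)) (i := 0) (by omega)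
  rw [e1] at e2
  have e3 := congrFun e2 []
  have e4 : Wh.extd Λ [.birth 0 false, .death 0] = Wh.extd Λ ocircle := e3
  rw [Wh.extd, Wh.extd, if_pos, if_pos] at e4
  · exact e4
  · unfold OClosed; decide +kernel
  · unfold OClosed; decide +kernel

/-- the HOMFLYPT polynomial of the knot -/
def P : Raz := C (T (-2)) * Kauf.evalP hexpected

theorem value_K {Λ : OWord → Raz} (h : IsHomflyInvariant Λ) : Λ K = P := by
  have h1 := HX.value (u := ua) (m := zVar) (Λ := Λ) h.1 K0 2 hexpected ok_K0 run_K0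
    (by decide) (by decide) oclosed_K
  have e1 : Wh.tb 2 0 = false := by decide
  have e3 : HX.dc K0 = 2 := by decide
  rw [e1, e3, circle_false h.1, h.2, smul_eq_mul, smul_eq_mul, mul_one, evP_eq, pow_two] at h1
  rw [P, ← h1, ← mul_assoc, ← mul_assoc, zpow2, one_mul]
  rfl

/-! ### existence of the HOMFLYPT polynomial in `ℤ[a^{±1}, z^{±1}]` -/

/-- the unit `z` -/
def uz : Razˣ := ⟨zVar, C (T (-1)), by rw [zVar, ← map_mul, ← T_add]; simp,
  by rw [zVar, ← map_mul, ← T_add]; simp⟩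

def psi : LaurentPolynomial ℤ →+* Raz := LaurentPolynomial.eval₂ (Int.castRingHom Raz) ua

/-- the exchange of the two variables -/
def phi : Wh.Rlm →+* Raz := LaurentPolynomial.eval₂ psi uz

theorem phi_l : phi (Wh.lPow 1) = aPow 1 := by
  rw [Wh.lPow, phi, eval₂_C, psi, eval₂_T, zpow_one]
  rfl

theorem phi_l' : phi (Wh.lPow (-1)) = aPow (-1) := by
  rw [Wh.lPow, phi, eval₂_C, psi, eval₂_T, zpow_neg, zpow_one]
  rfl

theorem phi_m : phi (Wh.mPow 1) = zVar := by
  rw [Wh.mPow, phi, eval₂_T, zpow_one]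
  rfl

theorem exists_homfly : ∃ Λ : OWord → Raz, IsHomflyInvariant Λ := by
  obtain ⟨Λ, hΛ, h1⟩ := Wh.Homf.exists_homfly
  refine ⟨fun D => phi (Λ D), ⟨?_, ?_, ?_⟩, ?_⟩
  · intro D E hDE
    exact congrArg phi (hΛ.isotopy D E hDE)
  · intro x i y h1 h2
    have := congrArg phi (hΛ.parallel x i y h1 h2)
    simp only [smul_eq_mul, map_sub, map_mul, phi_l, phi_l', phi_m] at this ⊢
    exact this
  · intro x i y h1 h2
    have := congrArg phi (hΛ.antiparallel x i y h1 h2)
    simp only [smul_eq_mul, map_sub, map_mul, phi_l, phi_l', phi_m] at this ⊢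
    exact this
  · show phi (Λ ocircle) = 1
    rw [h1, map_one]

theorem isHomflyPolynomialOf_P : IsHomflyPolynomialOf K P :=
  ⟨exists_homfly, fun _ h => value_K h⟩

theorem isASpread_P : IsASpread P 8 := by
  have h := isASpread_of_list ((hexpected.drop 1).dropLast)
    [0, 0, 0, 0, 1] (-8) 0 [0, 0, 3, 0, 4, 0, 1] 0 (-2) 4 2
    (by decide) (by decide) (by decide) (by decide)
  have e : aPow 0 * (C (T (-2)) * Kauf.evalP ((-8, [0, 0, 0, 0, 1]) ::
      (hexpected.drop 1).dropLast ++ [(0, [0, 0, 3, 0, 4, 0, 1])])) = P := by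
    rw [aPow, T_zero, one_mul]
    rfl
  rw [← e]
  exact h

/-! ### the knot is not trivial -/

theorem curl_power {M : Type} [AddCommGroup M] [Module Raz M] {Λ : Word → M}
    (hΛ : KauffmanRules Λ) {D E : Word} (h : Isotopic D E) :
    ∃ n : ℤ, Λ D = aPow n • Λ E := by
  induction h with
  | rel D E h =>
    obtain ⟨x, l, r, y, h, h1, h2⟩ := h
    rcases h with h | h
    · exact ⟨0, by
        rw [hΛ.regular _ _ (Relation.EqvGen.rel _ _ (Kauf.RegStep.mk x l r y h h1 h2)), aPow,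
          T_zero, one_smul]⟩
    · cases h with
      | birthPos i => exact ⟨-1, hΛ.birthPos x i y h2⟩
      | birthNeg i => exact ⟨1, hΛ.birthNeg x i y h2⟩
      | deathPos i => exact ⟨-1, hΛ.deathPos x i y h2⟩
      | deathNeg i => exact ⟨1, hΛ.deathNeg x i y h2⟩
  | refl D => exact ⟨0, by rw [aPow, T_zero, one_smul]⟩
  | symm D E _ ih =>
    obtain ⟨n, hn⟩ := ih
    refine ⟨-n, ?_⟩
    rw [hn, smul_smul, aPow, aPow, ← T_add, neg_add_cancel, T_zero, one_smul]
  | trans D E F _ _ ih1 ih2 =>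
    obtain ⟨n, hn⟩ := ih1
    obtain ⟨k, hk⟩ := ih2
    refine ⟨n + k, ?_⟩
    rw [hn, hk, smul_smul, aPow, aPow, aPow, T_add]

theorem nontrivial_KU : ¬ Isotopic KU circle := by
  intro h
  obtain ⟨n, hn⟩ := curl_power Kauf.Ex.Lam_rules h
  rw [value_KU _ Kauf.Ex.Lam_rules, Kauf.Ex.Lam_circle, smul_eq_mul, smul_eq_mul, mul_one,
    mul_one] at hn
  obtain ⟨x, y, hx, hy, hxy⟩ := isASpread_F
  have hF : F = T (4 + n) := by
    rw [F, normalised, hn, aPow, aPow, ← T_add, neg_neg]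
  have hall : ∀ k, k ∈ aExponents F → k = 4 + n := by
    intro k hk
    by_contra hne
    apply hk
    rw [hF, T_apply, if_neg (fun h => hne h.symm)]
  have e1 := hall x hx.1
  have e2 := hall y hy.1
  omega

end

end Pool.Agent.T2H90.AS
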